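import Pool.Agent.T6.H18.CR.S1
import Pool.Agent.T6.H18.CR.S2
import Pool.Agent.T6.H18.CR.S3
import Pool.Agent.T6.H18.CR.S4
import Pool.Agent.T6.H18.CR.P
import Pool.Agent.T6.H18.CR.P1
import Pool.Agent.T6.H18.CR.A1
import Pool.Agent.T6.H18.CR.A2
import Pool.Agent.T6.H18.CR.A3
import Pool.Agent.T6.H18.CR.N
import Pool.Agent.T6.H18.CR.K
import Pool.Agent.T6.H18.CR.R
import Pool.Agent.T6.H18.CR.C
import Pool.Agent.T6.H18.CR.AS
import Pool.Agent.T6.H18.CR.SP
import Pool.Agent.T6.H18.CR.GA
import Pool.Agent.T6.H18.CR.GB
import Pool.Agent.T6.H18.CR.L
import Pool.Agent.T6.H18.CR.CO
import Pool.Agent.T6.H18.CR.SE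
import Pool.Agent.T6.H18.CR.H
import Pool.Agent.T6.H18.CR.FI

/-!
Croft's first question has a negative answer: there is a Lebesgue measurable plane set `E` of positive
finite area such that there are arbitrarily small `t > 0` for which no line meets `E` in linear
measure `t`.

Outline. (1) Geometric core: there is a countable union `A` of disjoint thin triangles, of finite area,
such that for almost every `t` in `(0, 1)` some Borel null set `N t` contains length at least `1/2` of
every line which meets `A` in length `t`. `A` is built in stages. At a stage one adds finitely many
strips; a strip is a vertical (or horizontal) column of very many tiny triangles, so thin that the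
lengths of the sections hardly change, but the gradient of the length (as a function of the two
parameters of the line) changes by an amount of fixed size, up or down, in the direction given by the
position of the strip. This makes the gradient a martingale with bounded steps. Let `Y x` be its
derivative along the pencil of lines through the point over `x`. Once `Y x` is small for the lines in
some set, the points over `x` of those lines with length near `t` have small measure, by the area
formula. The strips at ten positions make sure that for every line `Y x` becomes small for at least
half of the `x` in a window, up to a set of lines which is killed with small cost. (2) Selection: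
let `N` be the union of `N t` for a sequence of values `t` tending to zero; a transfinite selection
gives a subset of `N` which has outer linear measure at least `1/2` on every line that meets `A` in one
of these lengths, and at most two points on every other line. `E` is the union of `A` and this set.
-/

set_option autoImplicit false

open MeasureTheory Set
open scoped ENNReal

namespace Pool.Agent.Results.MP_ec7c5f_an.MissedLengths

/-- The Euclidean plane. -/
abbrev Plane := EuclideanSpace ℝ (Fin 2)

/-- The line `L(θ, p)`, the set of `x` with `x · θ = p`; here `θ` is a unit vector. -/
def line (θ : Plane) (p : ℝ) : Set Plane := {x : Plane | inner ℝ x θ = p}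

/-- **Croft's first question, negative answer.** There is a Lebesgue measurable set `E` in the plane
with `0 < |E| < ∞` such that for every `δ > 0` there is a `t` with `0 < t < δ` which is not the value
of `H^1 (L ∩ E)` for any line `L`. -/
theorem result : ∃ E : Set Plane, NullMeasurableSet E volume ∧ 0 < volume E ∧ volume E < ∞ ∧
    ∀ δ : ℝ, 0 < δ → ∃ t : ℝ, 0 < t ∧ t < δ ∧
      ∀ (θ : Plane) (p : ℝ), ‖θ‖ = 1 → μH[1] (line θ p ∩ E) ≠ ENNReal.ofReal t := by
  open Pool.Agent.T6.H18.CR in
  have hlam : StmLam := S1.s1b
  have hxi : StmXi := S1.s1c
  have hlip : StmLip := S2.s2 hlam
  have husc : StmUsc := A2.a2 A1.a1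
  have hrec : StmRec := R.r1 hlam hlip hxi (S4.s4 hxi) husc
  have hcost : StmCost := C.c1 hlip hxi S3.s3 A1.a1 N.n1
  have has : StmAS := AS.as1 hxi hrec hcost K.k1
  have hst : StmStage := SP.sp1 S1.s1a hlam A3.a3 has P1.p1 P.p2 P.p1 hlip
  have hit : StmIter := GA.ga hst P.p2
  have hcore : StmCore := CO.co hit GB.gb L.l1
  exact FI.fi hcore SE.se H.h1 H.h2 H.h3

end Pool.Agent.Results.MP_ec7c5f_an.MissedLengths
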